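import Mathlib

set_option autoImplicit false

namespace Pool.Agent.Lib.MP_5f100a_co

open Finset

/-- Subsets of a seven element set. -/
abbrev U := Finset (Fin 7)

/-- Ordered pairs of distinct disjoint members of a family. -/
def dp (B : Finset U) : Finset (U × U) :=
  (B ×ˢ B).filter (fun q => q.1 ≠ q.2 ∧ Disjoint q.1 q.2)

/-- Number of ordered disjoint pairs in terms of the number of intersecting pairs. -/
theorem dp_card (B : Finset U) :
    (dp B).card + 2 * ((B.powersetCard 2).filter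
      (fun F => ∀ X ∈ F, ∀ Y ∈ F, X ≠ Y → ¬ Disjoint X Y)).card = B.card * B.card - B.card := by
  classical
  rw [← Finset.offDiag_card]
  have h1 : dp B = B.offDiag.filter (fun q => Disjoint q.1 q.2) := by
    ext q
    simp only [dp, mem_filter, mem_product, mem_offDiag]
    tauto
  rw [h1, ← Finset.card_filter_add_card_filter_not (s := B.offDiag) (fun q => Disjoint q.1 q.2)]
  congr 1
  set G := (B.powersetCard 2).filter
      (fun F => ∀ X ∈ F, ∀ Y ∈ F, X ≠ Y → ¬ Disjoint X Y) with hG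
  have hmaps : ∀ q ∈ B.offDiag.filter (fun q : U × U => ¬ Disjoint q.1 q.2),
      ({q.1, q.2} : Finset U) ∈ G := by
    intro q hq
    rw [mem_filter, mem_offDiag] at hq
    obtain ⟨⟨ha, hb, hab⟩, hd⟩ := hq
    rw [hG, mem_filter, mem_powersetCard]
    refine ⟨⟨?_, Finset.card_pair hab⟩, ?_⟩
    · intro x hx
      rw [mem_insert, mem_singleton] at hx
      rcases hx with rfl | rfl <;> assumption
    · intro X hX Y hY hXY
      rw [mem_insert, mem_singleton] at hX hY
      rcases hX with rfl | rfl <;> rcases hY with rfl | rfl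
      · exact absurd rfl hXY
      · exact hd
      · exact fun h => hd h.symm
      · exact absurd rfl hXY
  rw [Finset.card_eq_sum_card_fiberwise hmaps]
  rw [mul_comm, ← smul_eq_mul, ← Finset.sum_const]
  apply Finset.sum_congr rfl
  intro F hF
  rw [hG, mem_filter, mem_powersetCard] at hF
  obtain ⟨⟨hFB, hF2⟩, hI⟩ := hF
  obtain ⟨x, y, hxy, rfl⟩ := Finset.card_eq_two.1 hF2
  have hx : x ∈ B := hFB (by simp)
  have hy : y ∈ B := hFB (by simp)
  have hd : ¬ Disjoint x y := hI x (by simp) y (by simp) hxy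
  symm
  have : ((B.offDiag.filter (fun q : U × U => ¬ Disjoint q.1 q.2)).filter
      (fun q => ({q.1, q.2} : Finset U) = {x, y})) = {(x, y), (y, x)} := by
    ext ⟨a, b⟩
    simp only [mem_filter, mem_offDiag, mem_insert, mem_singleton, Prod.mk.injEq]
    constructor
    · rintro ⟨⟨⟨ha, hb, hab⟩, hd'⟩, he⟩
      have h1 : a ∈ ({x, y} : Finset U) := he ▸ (by simp)
      have h2 : b ∈ ({x, y} : Finset U) := he ▸ (by simp)
      rw [mem_insert, mem_singleton] at h1 h2
      rcases h1 with rfl | rfl <;> rcases h2 with rfl | rfl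
      · exact absurd rfl hab
      · left; exact ⟨rfl, rfl⟩
      · right; exact ⟨rfl, rfl⟩
      · exact absurd rfl hab
    · rintro (⟨rfl, rfl⟩ | ⟨rfl, rfl⟩)
      · exact ⟨⟨⟨hx, hy, hxy⟩, hd⟩, rfl⟩
      · exact ⟨⟨⟨hy, hx, hxy.symm⟩, fun h => hd h.symm⟩, Finset.pair_comm _ _⟩
  rw [this]
  apply Finset.card_pair
  intro h
  exact hxy (Prod.mk.inj h).1

/-- Double counting: summing over `k`-subsets `S` of `Q` and `l`-subsets of `S`. -/
theorem sum_pc_pc (Q : U) (k l : ℕ) (hlk : l ≤ k) (f : U → ℕ) :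
    ∑ S ∈ Q.powersetCard k, ∑ T ∈ S.powersetCard l, f T =
      Nat.choose (Q.card - l) (k - l) * ∑ T ∈ Q.powersetCard l, f T := by
  classical
  have h1 : ∑ S ∈ Q.powersetCard k, ∑ T ∈ S.powersetCard l, f T =
      ∑ T ∈ Q.powersetCard l, ∑ S ∈ (Q.powersetCard k).filter (T ⊆ ·), f T := by
    apply Finset.sum_comm'
    intro S T
    simp only [mem_powersetCard, mem_filter]
    constructor
    · rintro ⟨⟨h1, h2⟩, h3, h4⟩
      exact ⟨⟨⟨h1, h2⟩, h3⟩, h3.trans h1, h4⟩
    · rintro ⟨⟨⟨h1, h2⟩, h3⟩, _, h4⟩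
      exact ⟨⟨h1, h2⟩, h3, h4⟩
  rw [h1, Finset.mul_sum]
  apply Finset.sum_congr rfl
  intro T hT
  rw [mem_powersetCard] at hT
  rw [Finset.sum_const, smul_eq_mul,
    Finset.card_filter_powersetCard_subset T Q k hT.1 (by omega), hT.2]

/-- Exchanging the sums over pairs of disjoint sets of given sizes. -/
theorem sum_disj_swap (k l : ℕ) (f : U → U → ℕ) :
    ∑ S ∈ (univ : U).powersetCard k, ∑ T ∈ (Sᶜ).powersetCard l, f S T =
      ∑ T ∈ (univ : U).powersetCard l, ∑ S ∈ (Tᶜ).powersetCard k, f S T := by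
  classical
  apply Finset.sum_comm'
  intro S T
  simp only [mem_powersetCard, subset_univ, true_and]
  constructor
  · rintro ⟨h1, h2, h3⟩
    exact ⟨⟨Finset.subset_compl_comm.1 h2, h1⟩, h3⟩
  · rintro ⟨⟨h1, h2⟩, h3⟩
    exact ⟨h2, Finset.subset_compl_comm.1 h1, h3⟩

/-- Complementation in sums over a layer. -/
theorem sum_compl_layer (k l : ℕ) (hkl : k + l = 7) (f : U → ℕ) :
    ∑ X ∈ (univ : U).powersetCard k, f Xᶜ = ∑ X ∈ (univ : U).powersetCard l, f X := by
  classical
  apply Finset.sum_nbij' (fun X => Xᶜ) (fun X => Xᶜ)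
  · intro X hX
    rw [mem_powersetCard] at hX ⊢
    refine ⟨subset_univ _, ?_⟩
    rw [Finset.card_compl, hX.2, Fintype.card_fin]; omega
  · intro X hX
    rw [mem_powersetCard] at hX ⊢
    refine ⟨subset_univ _, ?_⟩
    rw [Finset.card_compl, hX.2, Fintype.card_fin]; omega
  · intro X _; exact compl_compl X
  · intro X _; exact compl_compl X
  · intro X _; rfl

end Pool.Agent.Lib.MP_5f100a_co
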