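import Pool.Agent.Lib.MP_5f100a_co.Struct

set_option autoImplicit false

namespace Pool.Agent.Lib.MP_5f100a_co

open Finset

/-- Sum of `w` over the `k`-subsets of `Q`. -/
def a (w : U → ℕ) (k : ℕ) (Q : U) : ℕ := ∑ T ∈ Q.powersetCard k, w T

theorem sum_a (w : U → ℕ) (Q : U) (k l : ℕ) (hlk : l ≤ k) :
    ∑ S ∈ Q.powersetCard k, a w l S = Nat.choose (Q.card - l) (k - l) * a w l Q :=
  sum_pc_pc Q k l hlk w

theorem a_le (w : U → ℕ) (hw : ∀ X, w X ≤ 1) (k : ℕ) (Q : U) :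
    a w k Q ≤ Nat.choose Q.card k := by
  unfold a
  calc ∑ T ∈ Q.powersetCard k, w T ≤ ∑ T ∈ Q.powersetCard k, 1 :=
        Finset.sum_le_sum (fun T _ => hw T)
    _ = Nat.choose Q.card k := by simp

theorem card_compl_of (S : U) (k : ℕ) (hS : S ∈ (univ : U).powersetCard k) :
    Sᶜ.card = 7 - k := by
  rw [mem_powersetCard] at hS
  rw [Finset.card_compl, hS.2, Fintype.card_fin]

theorem main_ineq (w : U → ℕ) (hw : ∀ X, w X ≤ 1) :
    8 * a w 3 univ + 10 * a w 2 univ ≤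
      ∑ S ∈ (univ : U).powersetCard 3, ∑ S' ∈ (Sᶜ).powersetCard 3, w S * w S'
      + 2 * ∑ S ∈ (univ : U).powersetCard 3, w S * a w 2 S
      + 2 * ∑ S ∈ (univ : U).powersetCard 3, w S * a w 2 Sᶜ
      + ∑ T ∈ (univ : U).powersetCard 2, w T * a w 2 Tᶜ + 140 := by
  classical
  have hsum : ∑ S ∈ (univ : U).powersetCard 3, ∑ S' ∈ (Sᶜ).powersetCard 3,
      (12 * (w S + w S') + 3 * (a w 2 S + a w 2 S')) ≤
      ∑ S ∈ (univ : U).powersetCard 3, ∑ S' ∈ (Sᶜ).powersetCard 3,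
      (12 * (w S * w S') + 3 * (a w 2 S * w S + a w 2 S' * w S') +
        6 * (a w 2 S * w S' + a w 2 S' * w S) + 2 * (a w 2 S * a w 2 S') + 12) := by
    apply Finset.sum_le_sum
    intro S hS
    apply Finset.sum_le_sum
    intro S' hS'
    have h1 := a_le w hw 2 S
    have h2 := a_le w hw 2 S'
    rw [mem_powersetCard] at hS hS'
    rw [hS.2] at h1
    rw [hS'.2] at h2
    have h3 : Nat.choose 3 2 = 3 := by decide
    rw [h3] at h1 h2
    have h4 := hw S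
    have h5 := hw S'
    exact local_ineq _ (by omega) _ (by omega) _ (by omega) _ (by omega)
  have hL : ∑ S ∈ (univ : U).powersetCard 3, ∑ S' ∈ (Sᶜ).powersetCard 3,
      (12 * (w S + w S') + 3 * (a w 2 S + a w 2 S')) =
      12 * (∑ S ∈ (univ : U).powersetCard 3, ∑ _S' ∈ (Sᶜ).powersetCard 3, w S +
        ∑ S ∈ (univ : U).powersetCard 3, ∑ S' ∈ (Sᶜ).powersetCard 3, w S') +
      3 * (∑ S ∈ (univ : U).powersetCard 3, ∑ _S' ∈ (Sᶜ).powersetCard 3, a w 2 S +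
        ∑ S ∈ (univ : U).powersetCard 3, ∑ S' ∈ (Sᶜ).powersetCard 3, a w 2 S') := by
    simp only [mul_add, Finset.sum_add_distrib, Finset.mul_sum]
  have hR : ∑ S ∈ (univ : U).powersetCard 3, ∑ S' ∈ (Sᶜ).powersetCard 3,
      (12 * (w S * w S') + 3 * (a w 2 S * w S + a w 2 S' * w S') +
        6 * (a w 2 S * w S' + a w 2 S' * w S) + 2 * (a w 2 S * a w 2 S') + 12) =
      12 * (∑ S ∈ (univ : U).powersetCard 3, ∑ S' ∈ (Sᶜ).powersetCard 3, w S * w S') +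
      3 * (∑ S ∈ (univ : U).powersetCard 3, ∑ _S' ∈ (Sᶜ).powersetCard 3, a w 2 S * w S +
        ∑ S ∈ (univ : U).powersetCard 3, ∑ S' ∈ (Sᶜ).powersetCard 3, a w 2 S' * w S') +
      6 * (∑ S ∈ (univ : U).powersetCard 3, ∑ S' ∈ (Sᶜ).powersetCard 3, a w 2 S * w S' +
        ∑ S ∈ (univ : U).powersetCard 3, ∑ S' ∈ (Sᶜ).powersetCard 3, a w 2 S' * w S) +
      2 * (∑ S ∈ (univ : U).powersetCard 3, ∑ S' ∈ (Sᶜ).powersetCard 3, a w 2 S * a w 2 S') +
      ∑ S ∈ (univ : U).powersetCard 3, ∑ _S' ∈ (Sᶜ).powersetCard 3, 12 := by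
    simp only [mul_add, Finset.sum_add_distrib, Finset.mul_sum]
  rw [hL, hR] at hsum
  have h1 : ∑ S ∈ (univ : U).powersetCard 3, ∑ _S' ∈ (Sᶜ).powersetCard 3, w S =
      4 * a w 3 univ := by
    rw [sum_fst_layer]; rfl
  have h2 : ∑ S ∈ (univ : U).powersetCard 3, ∑ S' ∈ (Sᶜ).powersetCard 3, w S' =
      4 * a w 3 univ :=
    (sum_disj_swap 3 3 (fun _ S' => w S')).trans h1
  have hA : ∑ S ∈ (univ : U).powersetCard 3, a w 2 S = 5 * a w 2 univ := by
    rw [sum_a _ _ _ _ (by norm_num)]; rfl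
  have h3 : ∑ S ∈ (univ : U).powersetCard 3, ∑ _S' ∈ (Sᶜ).powersetCard 3, a w 2 S =
      20 * a w 2 univ := by
    rw [sum_fst_layer 3 3 (a w 2), hA]
    have : Nat.choose (7 - 3) 3 = 4 := by decide
    rw [this]; ring
  have h4 : ∑ S ∈ (univ : U).powersetCard 3, ∑ S' ∈ (Sᶜ).powersetCard 3, a w 2 S' =
      20 * a w 2 univ :=
    (sum_disj_swap 3 3 (fun _ S' => a w 2 S')).trans h3
  have h5 : ∑ S ∈ (univ : U).powersetCard 3, ∑ _S' ∈ (Sᶜ).powersetCard 3, a w 2 S * w S =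
      4 * ∑ S ∈ (univ : U).powersetCard 3, w S * a w 2 S := by
    rw [sum_fst_layer 3 3 (fun S => a w 2 S * w S)]
    have : Nat.choose (7 - 3) 3 = 4 := by decide
    rw [this, Finset.mul_sum, Finset.mul_sum]
    apply Finset.sum_congr rfl
    intro S _
    ring
  have h6 : ∑ S ∈ (univ : U).powersetCard 3, ∑ S' ∈ (Sᶜ).powersetCard 3, a w 2 S' * w S' =
      4 * ∑ S ∈ (univ : U).powersetCard 3, w S * a w 2 S :=
    (sum_disj_swap 3 3 (fun _ S' => a w 2 S' * w S')).trans h5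
  have h8 : ∑ S ∈ (univ : U).powersetCard 3, ∑ S' ∈ (Sᶜ).powersetCard 3, a w 2 S' * w S =
      2 * ∑ S ∈ (univ : U).powersetCard 3, w S * a w 2 Sᶜ := by
    rw [Finset.mul_sum]
    apply Finset.sum_congr rfl
    intro S hS
    rw [← Finset.sum_mul, sum_a _ _ _ _ (by norm_num), card_compl_of S 3 hS]
    have : Nat.choose (7 - 3 - 2) (3 - 2) = 2 := by decide
    rw [this]; ring
  have h7 : ∑ S ∈ (univ : U).powersetCard 3, ∑ S' ∈ (Sᶜ).powersetCard 3, a w 2 S * w S' =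
      2 * ∑ S ∈ (univ : U).powersetCard 3, w S * a w 2 Sᶜ :=
    (sum_disj_swap 3 3 (fun S S' => a w 2 S * w S')).trans h8
  have h9 : ∑ S ∈ (univ : U).powersetCard 3, ∑ S' ∈ (Sᶜ).powersetCard 3, a w 2 S * a w 2 S' =
      6 * ∑ T ∈ (univ : U).powersetCard 2, w T * a w 2 Tᶜ := by
    have e1 : ∀ S ∈ (univ : U).powersetCard 3,
        ∑ S' ∈ (Sᶜ).powersetCard 3, a w 2 S * a w 2 S' =
        2 * ∑ T ∈ (Sᶜ).powersetCard 2, a w 2 S * w T := by
      intro S hS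
      rw [← Finset.mul_sum, sum_a _ _ _ _ (by norm_num), card_compl_of S 3 hS]
      have : Nat.choose (7 - 3 - 2) (3 - 2) = 2 := by decide
      rw [this, ← Finset.mul_sum]
      unfold a; ring
    rw [Finset.sum_congr rfl e1, ← Finset.mul_sum, sum_disj_swap 3 2 (fun S T => a w 2 S * w T)]
    have e2 : ∀ T ∈ (univ : U).powersetCard 2,
        ∑ S ∈ (Tᶜ).powersetCard 3, a w 2 S * w T = 3 * (w T * a w 2 Tᶜ) := by
      intro T hT
      rw [← Finset.sum_mul, sum_a _ _ _ _ (by norm_num), card_compl_of T 2 hT]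
      have : Nat.choose (7 - 2 - 2) (3 - 2) = 3 := by decide
      rw [this]; ring
    rw [Finset.sum_congr rfl e2, ← Finset.mul_sum]; ring
  have h10 : ∑ S ∈ (univ : U).powersetCard 3, ∑ _S' ∈ (Sᶜ).powersetCard 3, 12 = 1680 := by
    rw [sum_const_layer]; decide
  rw [h1, h2, h3, h4, h5, h6, h7, h8, h9, h10] at hsum
  omega

end Pool.Agent.Lib.MP_5f100a_co
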