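import Pool.Agent.Lib.MP_5f100a_co.Lower

set_option autoImplicit false

namespace Pool.Agent.Lib.MP_5f100a_co

open Finset

theorem F1 : ∀ S ∈ (univ : U).powersetCard 3,
    (((univ : U).powersetCard 3).filter (fun X => (X ∩ S).card = 2)).card = 12 := by
  decide +kernel

theorem F2 : ∀ S ∈ (univ : U).powersetCard 3,
    (((univ : U).powersetCard 3).filter (fun X => (X ∩ S).card = 1)).card = 18 := by
  decide +kernel

theorem F3 : ∀ S ∈ (univ : U).powersetCard 3, ∀ X ∈ (univ : U).powersetCard 3,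
    (X ∩ S).card = 1 →
    (((univ : U).powersetCard 3).filter (fun Y => (Y ∩ S).card = 1 ∧ Disjoint X Y)).card = 2 := by
  decide +kernel

theorem F4 : ∀ S ∈ (univ : U).powersetCard 3, ∀ X ∈ (univ : U).powersetCard 3,
    (X ∩ S).card = 2 → ∃ Y ∈ (univ : U).powersetCard 3, Disjoint S Y ∧ Disjoint X Y := by
  decide +kernel

theorem kneser_cover (w : U → ℕ) (hw : ∀ X, w X ≤ 1) (h20 : a w 3 univ ≤ 21)
    (hind : ∀ S ∈ (univ : U).powersetCard 3, ∀ S' ∈ (univ : U).powersetCard 3,
      Disjoint S S' → 1 ≤ w S + w S') :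
    ∀ S ∈ (univ : U).powersetCard 3, w S = 1 →
      ∃ S' ∈ (univ : U).powersetCard 3, Disjoint S S' ∧ w S' = 1 := by
  classical
  intro S hS hwS
  by_contra hno
  push Not at hno
  have hzero : ∀ S' ∈ (univ : U).powersetCard 3, Disjoint S S' → w S' = 0 := by
    intro S' hS' hd
    have h1 := hno S' hS' hd
    have h2 := hw S'
    omega
  set P := (univ : U).powersetCard 3 with hP
  have hsplit : a w 3 univ = ∑ i ∈ range 4, ∑ X ∈ P.filter (fun X => (X ∩ S).card = i), w X := by
    unfold a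
    rw [← hP]
    symm
    apply Finset.sum_fiberwise_of_maps_to (g := fun X : U => (X ∩ S).card)
    intro X _
    have hS3 : S.card = 3 := (mem_powersetCard.1 hS).2
    have := Finset.card_le_card (Finset.inter_subset_right (s₁ := X) (s₂ := S))
    rw [mem_range]
    omega
  simp only [Finset.sum_range_succ, Finset.sum_range_zero, zero_add] at hsplit
  -- the set itself
  have c3 : 1 ≤ ∑ X ∈ P.filter (fun X => (X ∩ S).card = 3), w X := by
    have hmem : S ∈ P.filter (fun X => (X ∩ S).card = 3) := by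
      rw [mem_filter]
      refine ⟨hS, ?_⟩
      rw [Finset.inter_self]
      exact (mem_powersetCard.1 hS).2
    calc 1 = w S := hwS.symm
      _ ≤ _ := Finset.single_le_sum (f := w) (fun _ _ => Nat.zero_le _) hmem
  have c2 : 12 ≤ ∑ X ∈ P.filter (fun X => (X ∩ S).card = 2), w X := by
    rw [← F1 S hS, Finset.card_eq_sum_ones]
    apply Finset.sum_le_sum
    intro X hX
    rw [mem_filter] at hX
    obtain ⟨Y, hY, hSY, hXY⟩ := F4 S hS X hX.1 hX.2
    have h1 := hzero Y hY hSY
    have h2 := hind X hX.1 Y hY hXY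
    omega
  have c1 : 36 ≤ 4 * ∑ X ∈ P.filter (fun X => (X ∩ S).card = 1), w X := by
    set C := P.filter (fun X => (X ∩ S).card = 1) with hC
    have hC18 : C.card = 18 := F2 S hS
    have hfil : ∀ X ∈ C, (C.filter (fun Y => Disjoint X Y)).card = 2 := by
      intro X hX
      rw [hC, mem_filter] at hX
      rw [← F3 S hS X hX.1 hX.2, hC, Finset.filter_filter]
    have e0 : ∑ X ∈ C, ∑ _Y ∈ C.filter (fun Y => Disjoint X Y), 1 = 36 := by
      have : ∀ X ∈ C, ∑ _Y ∈ C.filter (fun Y => Disjoint X Y), 1 = 2 := by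
        intro X hX
        rw [← Finset.card_eq_sum_ones, hfil X hX]
      rw [Finset.sum_congr rfl this, Finset.sum_const, hC18]
      rfl
    have e1 : ∑ X ∈ C, ∑ _Y ∈ C.filter (fun Y => Disjoint X Y), w X = 2 * ∑ X ∈ C, w X := by
      rw [Finset.mul_sum]
      apply Finset.sum_congr rfl
      intro X hX
      rw [Finset.sum_const, hfil X hX, smul_eq_mul]
    have e2 : ∑ X ∈ C, ∑ Y ∈ C.filter (fun Y => Disjoint X Y), w Y = 2 * ∑ X ∈ C, w X := by
      rw [← e1]
      apply Finset.sum_comm'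
      intro X Y
      simp only [mem_filter]
      constructor
      · rintro ⟨h1, h2, h3⟩; exact ⟨⟨h1, h3.symm⟩, h2⟩
      · rintro ⟨⟨h1, h3⟩, h2⟩; exact ⟨h1, h2, h3.symm⟩
    have e3 : ∑ X ∈ C, ∑ _Y ∈ C.filter (fun Y => Disjoint X Y), 1 ≤
        ∑ X ∈ C, ∑ Y ∈ C.filter (fun Y => Disjoint X Y), (w X + w Y) := by
      apply Finset.sum_le_sum
      intro X hX
      apply Finset.sum_le_sum
      intro Y hY
      rw [mem_filter] at hY
      rw [hC, mem_filter] at hX
      have hY1 := hY.1
      rw [hC, mem_filter] at hY1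
      exact hind X hX.1 Y hY1.1 hY.2
    simp only [Finset.sum_add_distrib] at e3
    rw [e0, e1, e2] at e3
    omega
  omega

end Pool.Agent.Lib.MP_5f100a_co
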