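import Pool.Agent.Lib.MP_5f100a_co.Ineq

set_option autoImplicit false

namespace Pool.Agent.Lib.MP_5f100a_co

open Finset

theorem sum_univ_layers (f : U → ℕ) :
    ∑ X ∈ (univ : Finset U), f X = ∑ k ∈ range 8, ∑ X ∈ (univ : U).powersetCard k, f X := by
  rw [← Finset.powerset_univ, Finset.sum_powerset]
  rfl

theorem deg_eq (w : U → ℕ) (Q : U) :
    ∑ Y ∈ Q.powerset, w Y = ∑ j ∈ range (Q.card + 1), a w j Q :=
  Finset.sum_powerset Q w

theorem a_self (w : U → ℕ) (Q : U) : a w Q.card Q = w Q := by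
  unfold a
  rw [Finset.powersetCard_self, Finset.sum_singleton]

theorem dp_lower (w : U → ℕ) (hw : ∀ X, w X ≤ 1) (hwc : ∀ X, w Xᶜ = w X) :
    ∑ S ∈ (univ : U).powersetCard 3, ∑ S' ∈ (Sᶜ).powersetCard 3, w S * w S'
      + 2 * ∑ S ∈ (univ : U).powersetCard 3, w S * a w 2 S
      + 2 * ∑ S ∈ (univ : U).powersetCard 3, w S * a w 2 Sᶜ
      + ∑ T ∈ (univ : U).powersetCard 2, w T * a w 2 Tᶜ
      + 2 * a w 3 univ + 2 * a w 2 univ ≤
    ∑ X ∈ (univ : Finset U), w X * ∑ Y ∈ (Xᶜ).powerset, w Y := by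
  classical
  have hsq : ∀ X, w X * w X = w X := by
    intro X
    have := hw X
    interval_cases w X <;> rfl
  -- layer 3
  have L3 : ∑ S ∈ (univ : U).powersetCard 3, w S * a w 2 Sᶜ
      + ∑ S ∈ (univ : U).powersetCard 3, ∑ S' ∈ (Sᶜ).powersetCard 3, w S * w S'
      + a w 3 univ ≤ ∑ S ∈ (univ : U).powersetCard 3, w S * ∑ Y ∈ (Sᶜ).powerset, w Y := by
    unfold a
    rw [← Finset.sum_add_distrib, ← Finset.sum_add_distrib]
    apply Finset.sum_le_sum
    intro S hS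
    have hcard := card_compl_of S 3 hS
    rw [deg_eq, hcard]
    have h4 : a w 4 Sᶜ = w S := by
      have := a_self w Sᶜ
      rw [hcard] at this
      rw [this, hwc]
    have : ∑ j ∈ range (7 - 3 + 1), a w j Sᶜ =
        a w 0 Sᶜ + a w 1 Sᶜ + a w 2 Sᶜ + a w 3 Sᶜ + a w 4 Sᶜ := by
      simp [Finset.sum_range_succ]
    rw [this, h4, ← Finset.mul_sum]
    have h5 : w S * (a w 0 Sᶜ + a w 1 Sᶜ + a w 2 Sᶜ + a w 3 Sᶜ + w S) =
        w S * (a w 0 Sᶜ + a w 1 Sᶜ) + w S * a w 2 Sᶜ + w S * a w 3 Sᶜ + w S * w S := by ring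
    rw [h5, hsq S]
    unfold a
    omega
  -- layer 4
  have L4 : ∑ S ∈ (univ : U).powersetCard 3, w S * a w 2 S + a w 3 univ ≤
      ∑ X ∈ (univ : U).powersetCard 4, w X * ∑ Y ∈ (Xᶜ).powerset, w Y := by
    rw [← sum_compl_layer 3 4 (by norm_num) (fun X => w X * ∑ Y ∈ (Xᶜ).powerset, w Y)]
    simp only [compl_compl]
    conv_lhs => rhs; unfold a
    rw [← Finset.sum_add_distrib]
    apply Finset.sum_le_sum
    intro S hS
    rw [hwc, deg_eq]
    rw [mem_powersetCard] at hS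
    have h4 : a w 3 S = w S := by
      have := a_self w S
      rwa [hS.2] at this
    rw [hS.2]
    have : ∑ j ∈ range (3 + 1), a w j S = a w 0 S + a w 1 S + a w 2 S + a w 3 S := by
      simp [Finset.sum_range_succ]
    rw [this, h4]
    have h5 : w S * (a w 0 S + a w 1 S + a w 2 S + w S) =
        w S * (a w 0 S + a w 1 S) + w S * a w 2 S + w S * w S := by ring
    rw [h5, hsq S]
    omega
  -- layer 2
  have L2 : ∑ T ∈ (univ : U).powersetCard 2, w T * a w 2 Tᶜ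
      + ∑ T ∈ (univ : U).powersetCard 2, w T * a w 3 Tᶜ
      + ∑ T ∈ (univ : U).powersetCard 2, w T * a w 4 Tᶜ
      + a w 2 univ ≤ ∑ T ∈ (univ : U).powersetCard 2, w T * ∑ Y ∈ (Tᶜ).powerset, w Y := by
    conv_lhs => rhs; unfold a
    rw [← Finset.sum_add_distrib, ← Finset.sum_add_distrib, ← Finset.sum_add_distrib]
    apply Finset.sum_le_sum
    intro T hT
    have hcard := card_compl_of T 2 hT
    rw [deg_eq, hcard]
    have h4 : a w 5 Tᶜ = w T := by
      have := a_self w Tᶜ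
      rw [hcard] at this
      rw [this, hwc]
    have : ∑ j ∈ range (7 - 2 + 1), a w j Tᶜ =
        a w 0 Tᶜ + a w 1 Tᶜ + a w 2 Tᶜ + a w 3 Tᶜ + a w 4 Tᶜ + a w 5 Tᶜ := by
      simp [Finset.sum_range_succ]
    rw [this, h4]
    have h5 : w T * (a w 0 Tᶜ + a w 1 Tᶜ + a w 2 Tᶜ + a w 3 Tᶜ + a w 4 Tᶜ + w T) =
        w T * (a w 0 Tᶜ + a w 1 Tᶜ) + w T * a w 2 Tᶜ + w T * a w 3 Tᶜ + w T * a w 4 Tᶜ
          + w T * w T := by ring
    rw [h5, hsq T]
    omega
  have J1 : ∑ T ∈ (univ : U).powersetCard 2, w T * a w 3 Tᶜ =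
      ∑ S ∈ (univ : U).powersetCard 3, w S * a w 2 Sᶜ := by
    unfold a
    simp only [Finset.mul_sum]
    rw [sum_disj_swap 2 3 (fun T S => w T * w S)]
    apply Finset.sum_congr rfl
    intro S _
    apply Finset.sum_congr rfl
    intro T _
    ring
  have J2 : ∑ T ∈ (univ : U).powersetCard 2, w T * a w 4 Tᶜ =
      ∑ S ∈ (univ : U).powersetCard 3, w S * a w 2 S := by
    have e1 : ∑ T ∈ (univ : U).powersetCard 2, w T * a w 4 Tᶜ =
        ∑ Q ∈ (univ : U).powersetCard 4, w Q * a w 2 Qᶜ := by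
      unfold a
      simp only [Finset.mul_sum]
      rw [sum_disj_swap 2 4 (fun T S => w T * w S)]
      apply Finset.sum_congr rfl
      intro S _
      apply Finset.sum_congr rfl
      intro T _
      ring
    rw [e1, ← sum_compl_layer 3 4 (by norm_num) (fun Q => w Q * a w 2 Qᶜ)]
    apply Finset.sum_congr rfl
    intro S _
    rw [hwc, compl_compl]
  -- layer 5
  have L5 : a w 2 univ ≤
      ∑ X ∈ (univ : U).powersetCard 5, w X * ∑ Y ∈ (Xᶜ).powerset, w Y := by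
    rw [← sum_compl_layer 2 5 (by norm_num) (fun X => w X * ∑ Y ∈ (Xᶜ).powerset, w Y)]
    simp only [compl_compl]
    unfold a
    apply Finset.sum_le_sum
    intro T hT
    rw [hwc]
    have h1 : w T ≤ ∑ Y ∈ T.powerset, w Y :=
      Finset.single_le_sum (f := w) (fun _ _ => Nat.zero_le _) (Finset.mem_powerset_self T)
    calc w T = w T * w T := (hsq T).symm
      _ ≤ _ := Nat.mul_le_mul_left _ h1
  rw [sum_univ_layers]
  have hr : ∑ k ∈ range 8, ∑ X ∈ (univ : U).powersetCard k, w X * ∑ Y ∈ (Xᶜ).powerset, w Y =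
      ∑ X ∈ (univ : U).powersetCard 0, w X * ∑ Y ∈ (Xᶜ).powerset, w Y +
      ∑ X ∈ (univ : U).powersetCard 1, w X * ∑ Y ∈ (Xᶜ).powerset, w Y +
      ∑ X ∈ (univ : U).powersetCard 2, w X * ∑ Y ∈ (Xᶜ).powerset, w Y +
      ∑ X ∈ (univ : U).powersetCard 3, w X * ∑ Y ∈ (Xᶜ).powerset, w Y +
      ∑ X ∈ (univ : U).powersetCard 4, w X * ∑ Y ∈ (Xᶜ).powerset, w Y +
      ∑ X ∈ (univ : U).powersetCard 5, w X * ∑ Y ∈ (Xᶜ).powerset, w Y +
      ∑ X ∈ (univ : U).powersetCard 6, w X * ∑ Y ∈ (Xᶜ).powerset, w Y +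
      ∑ X ∈ (univ : U).powersetCard 7, w X * ∑ Y ∈ (Xᶜ).powerset, w Y := by
    simp only [Finset.sum_range_succ, Finset.sum_range_zero, zero_add]
  rw [hr]
  omega

end Pool.Agent.Lib.MP_5f100a_co
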