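import Pool.Agent.Lib.MP_5f100a_co.Upper

set_option autoImplicit false

namespace Pool.Agent.Lib.MP_5f100a_co

open Finset

/-- All sets with at least four elements. -/
def big : Finset U := univ.filter (fun X => 4 ≤ X.card)

/-- The three element sets through the point 0. -/
def star : Finset U := ((univ : U).powersetCard 3).filter (fun X => (0 : Fin 7) ∈ X)

/-- Five further three element sets. -/
def Bs : Finset U := {{1, 2, 3}, {1, 2, 4}, {1, 2, 5}, {1, 2, 6}, {1, 3, 4}}

/-- The first comparison family. -/
def A1 : Finset U := big ∪ ((univ : U).powersetCard 3).filter (fun X => (0 : Fin 7) ∉ X)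

/-- The second comparison family. -/
def A2 : Finset U := big ∪ (star ∪ Bs)

theorem card_A1 : A1.card = 84 := by decide +kernel

theorem card_A2 : A2.card = 84 := by decide +kernel

theorem card_big : big.card = 64 := by decide +kernel

theorem dp_A1 : (dp A1).card = 60 := by decide +kernel

/-- The completion of a family of three element sets. -/
def compl64 (H : Finset U) : Finset U := H ∪ big.filter (fun X => Xᶜ ∉ H)

/-- The sets of the star compatible with a subfamily. -/
def avail (H : Finset U) : Finset U := star.filter (fun X => ∀ B ∈ H, ¬ Disjoint B X)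

theorem count_val : ∑ H ∈ Bs.powerset, 2 ^ (avail H).card = 67072 := by decide +kernel

theorem Bs_card3 : ∀ X ∈ Bs, X.card = 3 := by decide +kernel

theorem Bs_int : ∀ X ∈ Bs, ∀ Y ∈ Bs, ¬ Disjoint X Y := by decide +kernel

theorem Bs_star : ∀ X ∈ Bs, X ∉ star := by decide +kernel

theorem card_compl64 (H : Finset U) (hH : ∀ X ∈ H, X.card = 3) : (compl64 H).card = 64 := by
  classical
  have h1 : big.filter (fun X => Xᶜ ∉ H) = big \ H.image (fun X => Xᶜ) := by
    ext X
    rw [mem_filter, mem_sdiff, mem_image]
    constructor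
    · rintro ⟨h1, h2⟩
      refine ⟨h1, ?_⟩
      rintro ⟨Y, hY, rfl⟩
      exact h2 (by rwa [compl_compl])
    · rintro ⟨h1, h2⟩
      exact ⟨h1, fun h => h2 ⟨Xᶜ, h, compl_compl X⟩⟩
  have h2 : H.image (fun X => Xᶜ) ⊆ big := by
    intro X hX
    rw [mem_image] at hX
    obtain ⟨Y, hY, rfl⟩ := hX
    unfold big
    rw [mem_filter]
    refine ⟨mem_univ _, ?_⟩
    rw [Finset.card_compl, Fintype.card_fin, hH Y hY]
  have hd : Disjoint H (big.filter (fun X => Xᶜ ∉ H)) := by
    rw [Finset.disjoint_left]
    intro X hX hX2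
    unfold big at hX2
    rw [mem_filter, mem_filter] at hX2
    have := hH X hX
    omega
  have h3 : (H.image (fun X => Xᶜ)).card = H.card :=
    Finset.card_image_of_injective _ compl_injective
  have h4 : H.card ≤ 64 := by
    rw [← h3, ← card_big]; exact Finset.card_le_card h2
  unfold compl64
  rw [Finset.card_union_of_disjoint hd, h1, Finset.card_sdiff_of_subset h2, card_big, h3]
  omega

theorem compl64_int (H : Finset U) (hH : ∀ X ∈ H, X.card = 3)
    (hI : ∀ X ∈ H, ∀ Y ∈ H, ¬ Disjoint X Y) :
    ∀ X ∈ compl64 H, ∀ Y ∈ compl64 H, X ≠ Y → ¬ Disjoint X Y := by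
  classical
  have hmem : ∀ X ∈ compl64 H, X ∈ H ∨ (4 ≤ X.card ∧ Xᶜ ∉ H) := by
    intro X hX
    unfold compl64 big at hX
    rw [mem_union, mem_filter, mem_filter] at hX
    rcases hX with h | h
    · exact Or.inl h
    · exact Or.inr ⟨h.1.2, h.2⟩
  have hcard : ∀ X Y : U, Disjoint X Y → X.card + Y.card ≤ 7 := by
    intro X Y hd
    rw [← Finset.card_union_of_disjoint hd]
    have := Finset.card_le_univ (X ∪ Y)
    rwa [Fintype.card_fin] at this
  have hkey : ∀ X Y : U, X ∈ H → 4 ≤ Y.card → Disjoint X Y → Yᶜ ∈ H := by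
    intro X Y hX hY hd
    have h1 := hcard X Y hd
    have h2 := hH X hX
    have h3 : X = Yᶜ := by
      apply Finset.eq_of_subset_of_card_le
      · exact Finset.subset_compl_iff_disjoint_right.2 hd
      · rw [Finset.card_compl, Fintype.card_fin]; omega
    rw [← h3]; exact hX
  intro X hX Y hY _ hd
  rcases hmem X hX with h1 | h1 <;> rcases hmem Y hY with h2 | h2
  · exact hI X h1 Y h2 hd
  · exact h2.2 (hkey X Y h1 h2.1 hd)
  · exact h1.2 (hkey Y X h2 h1.1 hd.symm)
  · have := hcard X Y hd
    omega

theorem lower : 3 ^ 10 < ((A2.powersetCard 64).filter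
      (fun F => ∀ X ∈ F, ∀ Y ∈ F, X ≠ Y → ¬ Disjoint X Y)).card := by
  classical
  have hcard : (Bs.powerset.sigma (fun H => (avail H).powerset)).card = 67072 := by
    rw [Finset.card_sigma, ← count_val]
    apply Finset.sum_congr rfl
    intro H _
    rw [Finset.card_powerset]
  have h67 : 3 ^ 10 < 67072 := by norm_num
  refine lt_of_lt_of_le h67 ?_
  rw [← hcard]
  have hstar : ∀ X ∈ star, X.card = 3 ∧ (0 : Fin 7) ∈ X := by
    intro X hX
    unfold star at hX
    rw [mem_filter, mem_powersetCard] at hX
    exact ⟨hX.1.2, hX.2⟩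
  have hav : ∀ H X, X ∈ avail H → X ∈ star ∧ ∀ B ∈ H, ¬ Disjoint B X := by
    intro H X hX
    unfold avail at hX
    rw [mem_filter] at hX
    exact hX
  apply Finset.card_le_card_of_injOn (fun p : (Σ _ : Finset U, Finset U) => compl64 (p.1 ∪ p.2))
  · rintro ⟨H, K⟩ hp
    rw [mem_coe, mem_sigma, mem_powerset, mem_powerset] at hp
    obtain ⟨hH, hK⟩ := hp
    dsimp only at hH hK ⊢
    have h3 : ∀ X ∈ H ∪ K, X.card = 3 := by
      intro X hX
      rw [mem_union] at hX
      rcases hX with h | h
      · exact Bs_card3 X (hH h)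
      · exact (hstar X (hav H X (hK h)).1).1
    have hI : ∀ X ∈ H ∪ K, ∀ Y ∈ H ∪ K, ¬ Disjoint X Y := by
      intro X hX Y hY
      rw [mem_union] at hX hY
      rcases hX with h | h <;> rcases hY with h' | h'
      · exact Bs_int X (hH h) Y (hH h')
      · exact (hav H Y (hK h')).2 X h
      · exact fun hd => (hav H X (hK h)).2 Y h' hd.symm
      · have h1 := (hstar X (hav H X (hK h)).1).2
        have h2 := (hstar Y (hav H Y (hK h')).1).2
        exact fun hd => (Finset.disjoint_left.1 hd h1) h2
    rw [mem_coe, mem_filter, mem_powersetCard]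
    refine ⟨⟨?_, card_compl64 _ h3⟩, compl64_int _ h3 hI⟩
    intro X hX
    unfold compl64 at hX
    unfold A2
    rw [mem_union, mem_filter] at hX
    rw [mem_union, mem_union]
    rcases hX with h | h
    · right
      rw [mem_union] at h
      rcases h with h | h
      · right; exact hH h
      · left; exact (hav H X (hK h)).1
    · left; exact h.1
  · rintro ⟨H, K⟩ hp ⟨H', K'⟩ hp' heq
    rw [mem_coe, mem_sigma, mem_powerset, mem_powerset] at hp hp'
    obtain ⟨hH, hK⟩ := hp
    obtain ⟨hH', hK'⟩ := hp'
    dsimp only at hH hK hH' hK' heq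
    have hKs : K ⊆ star := fun X hX => (hav H X (hK hX)).1
    have hKs' : K' ⊆ star := fun X hX => (hav H' X (hK' hX)).1
    have h3 : ∀ H K : Finset U, H ⊆ Bs → K ⊆ star → ∀ X : U,
        X ∈ H ∪ K ↔ X ∈ compl64 (H ∪ K) ∧ X.card = 3 := by
      intro H K hH hK X
      unfold compl64 big
      constructor
      · intro h
        refine ⟨mem_union_left _ h, ?_⟩
        rw [mem_union] at h
        rcases h with h | h
        · exact Bs_card3 X (hH h)
        · exact (hstar X (hK h)).1
      · rintro ⟨h1, h2⟩
        rw [mem_union] at h1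
        rcases h1 with h | h
        · exact h
        · rw [mem_filter, mem_filter] at h
          omega
    have hu : H ∪ K = H' ∪ K' := by
      ext X
      rw [h3 H K hH hKs X, h3 H' K' hH' hKs' X, heq]
    have hHH : H = H' := by
      ext X
      constructor
      · intro h
        have h1 : X ∈ H' ∪ K' := by rw [← hu]; exact mem_union_left _ h
        rw [mem_union] at h1
        rcases h1 with h1 | h1
        · exact h1
        · exact absurd (hKs' h1) (Bs_star X (hH h))
      · intro h
        have h1 : X ∈ H ∪ K := by rw [hu]; exact mem_union_left _ h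
        rw [mem_union] at h1
        rcases h1 with h1 | h1
        · exact h1
        · exact absurd (hKs h1) (Bs_star X (hH' h))
    have hKK : K = K' := by
      ext X
      constructor
      · intro h
        have h1 : X ∈ H' ∪ K' := by rw [← hu]; exact mem_union_right _ h
        rw [mem_union] at h1
        rcases h1 with h1 | h1
        · exact absurd (hKs h) (Bs_star X (hH' h1))
        · exact h1
      · intro h
        have h1 : X ∈ H ∪ K := by rw [hu]; exact mem_union_right _ h
        rw [mem_union] at h1
        rcases h1 with h1 | h1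
        · exact absurd (hKs' h) (Bs_star X (hH h1))
        · exact h1
    rw [hHH, hKK]

/-- No family of 84 subsets of a 7-set is at least as good as `A1` for pairs and at least as good
as `A2` for subfamilies of order 64. -/
theorem core (A : Finset U) (hA : A.card = 84)
    (h2 : ((A1.powersetCard 2).filter
        (fun F => ∀ X ∈ F, ∀ Y ∈ F, X ≠ Y → ¬ Disjoint X Y)).card ≤
      ((A.powersetCard 2).filter
        (fun F => ∀ X ∈ F, ∀ Y ∈ F, X ≠ Y → ¬ Disjoint X Y)).card)
    (h64 : ((A2.powersetCard 64).filter
        (fun F => ∀ X ∈ F, ∀ Y ∈ F, X ≠ Y → ¬ Disjoint X Y)).card ≤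
      ((A.powersetCard 64).filter
        (fun F => ∀ X ∈ F, ∀ Y ∈ F, X ≠ Y → ¬ Disjoint X Y)).card) : False := by
  have e1 := dp_card A1
  have e2 := dp_card A
  rw [card_A1, dp_A1] at e1
  rw [hA] at e2
  have hdp : (dp A).card ≤ 60 := by omega
  have hup := upper A hA hdp
  have hlow := lower
  omega

end Pool.Agent.Lib.MP_5f100a_co
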