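import Pool.Agent.Lib.MP_5f100a_co.Core

set_option autoImplicit false

namespace Pool.Agent.Lib.MP_5f100a_co

open Finset

/-- The degree of `X` in the disjointness graph on `W`. -/
theorem dp_card_eq_sum (W : Finset U) (h0 : ∅ ∉ W) :
    (dp W).card = ∑ X ∈ (univ : Finset U), (if X ∈ W then 1 else 0) *
      ∑ Y ∈ (Xᶜ).powerset, (if Y ∈ W then 1 else 0) := by
  classical
  unfold dp
  rw [Finset.card_filter, Finset.sum_product]
  simp only [ite_mul, one_mul, zero_mul]
  rw [Finset.sum_ite, Finset.sum_const_zero, add_zero, Finset.filter_mem_eq_inter, univ_inter]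
  apply Finset.sum_congr rfl
  intro X hX
  rw [← Finset.card_filter, ← Finset.card_filter]
  congr 1
  ext Y
  simp only [mem_filter, mem_powerset]
  constructor
  · rintro ⟨h1, h2, h3⟩
    exact ⟨Finset.subset_compl_iff_disjoint_left.2 h3, h1⟩
  · rintro ⟨h1, h2⟩
    have h3 : Disjoint X Y := Finset.subset_compl_iff_disjoint_left.1 h1
    refine ⟨h2, ?_, h3⟩
    rintro rfl
    rw [disjoint_self] at h3
    rw [h3] at hX
    exact h0 hX

/-- A family closed under complements with at least 40 members and at most 60 ordered disjoint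
pairs has no members of size at most one. -/
theorem no_small (W : Finset U) (hc : ∀ X ∈ W, Xᶜ ∈ W) (h40 : 40 ≤ W.card)
    (hdp : (dp W).card ≤ 60) : ∀ X ∈ W, 2 ≤ X.card := by
  classical
  intro A hA
  by_contra hlt
  have hA1 : A.card ≤ 1 := by omega
  -- for every X, A is disjoint from X or from its complement
  have key : ∀ X : U, Disjoint A X ∨ Disjoint A Xᶜ := by
    intro X
    rcases Finset.card_le_one_iff_subset_singleton.1 hA1 with ⟨v, hv⟩
    by_cases hvX : v ∈ X
    · right
      apply Finset.disjoint_of_subset_left hv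
      rw [Finset.disjoint_singleton_left, Finset.mem_compl]
      exact fun h => h hvX
    · left
      apply Finset.disjoint_of_subset_left hv
      rw [Finset.disjoint_singleton_left]
      exact hvX
  set V := (W.erase A).erase Aᶜ with hV
  have hVcard : 38 ≤ V.card := by
    have h1 := Finset.pred_card_le_card_erase (s := W) (a := A)
    have h2 := Finset.pred_card_le_card_erase (s := W.erase A) (a := Aᶜ)
    rw [← hV] at h2
    omega
  have hVc : ∀ X ∈ V, Xᶜ ∈ V := by
    intro X hX
    rw [hV, mem_erase, mem_erase] at hX ⊢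
    refine ⟨fun h => hX.2.1 (compl_injective h), fun h => hX.1 ?_, hc X hX.2.2⟩
    rw [← h, compl_compl]
  set V1 := V.filter (fun X => Disjoint A X) with hV1
  have hV1card : 19 ≤ V1.card := by
    have hsub : V ⊆ V1 ∪ V1.image (fun X => Xᶜ) := by
      intro X hX
      rw [mem_union]
      rcases key X with h | h
      · left; rw [hV1, mem_filter]; exact ⟨hX, h⟩
      · right
        rw [mem_image]
        refine ⟨Xᶜ, ?_, compl_compl X⟩
        rw [hV1, mem_filter]; exact ⟨hVc X hX, h⟩
    have h1 := Finset.card_le_card hsub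
    have h2 := Finset.card_union_le V1 (V1.image (fun X => Xᶜ))
    have h3 := Finset.card_image_le (s := V1) (f := fun X => Xᶜ)
    omega
  set T1 := V1.image (fun X => (A, X)) with hT1
  set T2 := V1.image (fun X => (X, A)) with hT2
  set T3 := W.image (fun X => (X, Xᶜ)) with hT3
  have hT1c : T1.card = V1.card := by
    rw [hT1]; apply Finset.card_image_of_injective
    intro a b h; exact (Prod.mk.inj h).2
  have hT2c : T2.card = V1.card := by
    rw [hT2]; apply Finset.card_image_of_injective
    intro a b h; exact (Prod.mk.inj h).1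
  have hT3c : T3.card = W.card := by
    rw [hT3]; apply Finset.card_image_of_injective
    intro a b h; exact (Prod.mk.inj h).1
  have hV1mem : ∀ X ∈ V1, X ≠ Aᶜ ∧ X ≠ A ∧ X ∈ W ∧ Disjoint A X := by
    intro X hX
    rw [hV1, mem_filter, hV, mem_erase, mem_erase] at hX
    exact ⟨hX.1.1, hX.1.2.1, hX.1.2.2, hX.2⟩
  have hsub : (T1 ∪ T2) ∪ T3 ⊆ dp W := by
    intro q hq
    rw [mem_union, mem_union] at hq
    unfold dp
    rw [mem_filter, mem_product]
    rcases hq with (hq | hq) | hq
    · rw [hT1, mem_image] at hq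
      obtain ⟨X, hX, rfl⟩ := hq
      obtain ⟨-, h2, h3, h4⟩ := hV1mem X hX
      exact ⟨⟨hA, h3⟩, fun h => h2 h.symm, h4⟩
    · rw [hT2, mem_image] at hq
      obtain ⟨X, hX, rfl⟩ := hq
      obtain ⟨-, h2, h3, h4⟩ := hV1mem X hX
      exact ⟨⟨h3, hA⟩, h2, h4.symm⟩
    · rw [hT3, mem_image] at hq
      obtain ⟨X, hX, rfl⟩ := hq
      exact ⟨⟨hX, hc X hX⟩, ne_compl_self, disjoint_compl_right⟩
  have hd12 : Disjoint T1 T2 := by
    rw [Finset.disjoint_left]
    intro q h1 h2
    rw [hT1, mem_image] at h1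
    rw [hT2, mem_image] at h2
    obtain ⟨X, hX, rfl⟩ := h1
    obtain ⟨Y, hY, hY2⟩ := h2
    exact (hV1mem X hX).2.1 (Prod.mk.inj hY2).2.symm
  have hd123 : Disjoint (T1 ∪ T2) T3 := by
    rw [Finset.disjoint_left]
    intro q h1 h2
    rw [hT3, mem_image] at h2
    obtain ⟨Y, hY, rfl⟩ := h2
    rw [mem_union, hT1, hT2, mem_image, mem_image] at h1
    rcases h1 with ⟨X, hX, hX2⟩ | ⟨X, hX, hX2⟩
    · obtain ⟨h3, h4⟩ := Prod.mk.inj hX2
      exact (hV1mem X hX).1 (by rw [h4, h3])
    · obtain ⟨h3, h4⟩ := Prod.mk.inj hX2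
      exact (hV1mem X hX).1 (by rw [h3, h4, compl_compl])
  have := Finset.card_le_card hsub
  rw [Finset.card_union_of_disjoint hd123, Finset.card_union_of_disjoint hd12] at this
  omega

theorem local_ineq : ∀ s < 2, ∀ s' < 2, ∀ t < 4, ∀ t' < 4,
    12 * (s + s') + 3 * (t + t') ≤
      12 * (s * s') + 3 * (t * s + t' * s') + 6 * (t * s' + t' * s) + 2 * (t * t') + 12 := by
  decide

theorem sum_const_layer (k l c : ℕ) :
    ∑ S ∈ (univ : U).powersetCard k, ∑ _T ∈ (Sᶜ).powersetCard l, c =
      Nat.choose 7 k * (Nat.choose (7 - k) l * c) := by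
  have h : ∀ S ∈ (univ : U).powersetCard k, ∑ _T ∈ (Sᶜ).powersetCard l, c =
      Nat.choose (7 - k) l * c := by
    intro S hS
    rw [mem_powersetCard] at hS
    rw [Finset.sum_const, Finset.card_powersetCard, Finset.card_compl, hS.2, Fintype.card_fin,
      smul_eq_mul]
  rw [Finset.sum_congr rfl h, Finset.sum_const, Finset.card_powersetCard, Finset.card_univ,
    Fintype.card_fin, smul_eq_mul]

theorem sum_fst_layer (k l : ℕ) (f : U → ℕ) :
    ∑ S ∈ (univ : U).powersetCard k, ∑ _T ∈ (Sᶜ).powersetCard l, f S =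
      Nat.choose (7 - k) l * ∑ S ∈ (univ : U).powersetCard k, f S := by
  rw [Finset.mul_sum]
  apply Finset.sum_congr rfl
  intro S hS
  rw [mem_powersetCard] at hS
  rw [Finset.sum_const, Finset.card_powersetCard, Finset.card_compl, hS.2, Fintype.card_fin,
    smul_eq_mul]

end Pool.Agent.Lib.MP_5f100a_co
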