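import Pool.Agent.Lib.MP_5f100a_co.Kneser

set_option autoImplicit false

namespace Pool.Agent.Lib.MP_5f100a_co

open Finset

/-- Structure of a large family closed under complements with few disjoint pairs. -/
theorem structure_thm (W : Finset U) (hc : ∀ X ∈ W, Xᶜ ∈ W) (h40 : 40 ≤ W.card)
    (hdp : (dp W).card ≤ 60) :
    (∀ X ∈ W, X.card = 3 ∨ X.card = 4) ∧
    (∑ S ∈ (univ : U).powersetCard 3, ∑ S' ∈ (Sᶜ).powersetCard 3,
      (if S ∈ W then 1 else 0) * (if S' ∈ W then 1 else 0) ≤ 20) ∧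
    (∀ S ∈ W, S.card = 3 → ∃ S' ∈ W, S'.card = 3 ∧ Disjoint S S') := by
  classical
  have hsmall := no_small W hc h40 hdp
  have hcc : ∀ X, Xᶜ ∈ W ↔ X ∈ W := by
    intro X
    constructor
    · intro h; have := hc _ h; rwa [compl_compl] at this
    · exact hc X
  have h0 : (∅ : U) ∉ W := by
    intro h
    have := hsmall _ h
    simp at this
  set w : U → ℕ := fun X => if X ∈ W then 1 else 0 with hwdef
  have hw : ∀ X, w X ≤ 1 := by
    intro X; rw [hwdef]; dsimp only; split_ifs <;> omega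
  have hwc : ∀ X, w Xᶜ = w X := by
    intro X; rw [hwdef]; dsimp only; simp only [hcc]
  have hw0 : ∀ X, X.card < 2 → w X = 0 := by
    intro X hX
    rw [hwdef]; dsimp only
    rw [if_neg]
    intro h
    have := hsmall X h
    omega
  have hsum := dp_card_eq_sum W h0
  have hlow := dp_lower w hw hwc
  have hmain := main_ineq w hw
  change (dp W).card = ∑ X ∈ (univ : Finset U), w X * ∑ Y ∈ (Xᶜ).powerset, w Y at hsum
  rw [← hsum] at hlow
  -- the cardinality of W
  have hcard : W.card = ∑ X ∈ (univ : Finset U), w X := by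
    rw [hwdef]; dsimp only
    rw [Finset.sum_boole, Finset.filter_mem_eq_inter, univ_inter]; rfl
  rw [sum_univ_layers] at hcard
  have ha0 : ∑ X ∈ (univ : U).powersetCard 0, w X = 0 := by
    apply Finset.sum_eq_zero
    intro X hX
    rw [mem_powersetCard] at hX
    exact hw0 X (by omega)
  have ha1 : ∑ X ∈ (univ : U).powersetCard 1, w X = 0 := by
    apply Finset.sum_eq_zero
    intro X hX
    rw [mem_powersetCard] at hX
    exact hw0 X (by omega)
  have hsymm : ∀ k l : ℕ, k + l = 7 → ∑ X ∈ (univ : U).powersetCard l, w X =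
      ∑ X ∈ (univ : U).powersetCard k, w X := by
    intro k l hkl
    rw [← sum_compl_layer k l hkl w]
    apply Finset.sum_congr rfl
    intro X _
    exact hwc X
  have ha7 := hsymm 0 7 (by norm_num)
  have ha6 := hsymm 1 6 (by norm_num)
  have ha5 := hsymm 2 5 (by norm_num)
  have ha4 := hsymm 3 4 (by norm_num)
  simp only [Finset.sum_range_succ, Finset.sum_range_zero, zero_add] at hcard
  rw [ha7, ha6, ha5, ha4, ha0, ha1] at hcard
  change W.card = 0 + 0 + a w 2 univ + a w 3 univ + a w 3 univ + a w 2 univ + 0 + 0 at hcard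
  have hw2 : a w 2 univ = 0 := by omega
  have hw3 : a w 3 univ = 20 := by omega
  have hE3 : ∑ S ∈ (univ : U).powersetCard 3, ∑ S' ∈ (Sᶜ).powersetCard 3, w S * w S' ≤ 20 := by
    omega
  have hno2 : ∀ X : U, X.card = 2 → X ∉ W := by
    intro X hX hXW
    have h1 : w X ≤ a w 2 univ :=
      Finset.single_le_sum (f := w) (fun _ _ => Nat.zero_le _)
        (mem_powersetCard.2 ⟨subset_univ X, hX⟩)
    have h2 : w X = 1 := by rw [hwdef]; dsimp only; rw [if_pos hXW]
    omega
  have hsizes : ∀ X ∈ W, X.card = 3 ∨ X.card = 4 := by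
    intro X hX
    have h1 := hsmall X hX
    have h2 := hsmall Xᶜ (hc X hX)
    have h3 : X.card ≠ 2 := fun h => hno2 X h hX
    have h4 : Xᶜ.card ≠ 2 := fun h => hno2 Xᶜ h (hc X hX)
    have h5 : Xᶜ.card = 7 - X.card := by rw [Finset.card_compl, Fintype.card_fin]
    have h6 : X.card ≤ 7 := by
      have := Finset.card_le_univ X
      rwa [Fintype.card_fin] at this
    omega
  have hind : ∀ S ∈ (univ : U).powersetCard 3, ∀ S' ∈ (univ : U).powersetCard 3,
      Disjoint S S' → 1 ≤ w S + w S' := by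
    intro S hS S' hS' hd
    by_contra hlt
    have hS0 : w S = 0 := by omega
    have hS'0 : w S' = 0 := by omega
    have hmem : S' ∈ (Sᶜ).powersetCard 3 := by
      rw [mem_powersetCard] at hS' ⊢
      exact ⟨Finset.subset_compl_iff_disjoint_left.2 hd, hS'.2⟩
    have hstep : ∀ X Y : U, w X + w Y ≤ w X * w Y + 1 := by
      intro X Y
      have h1 := hw X
      have h2 := hw Y
      interval_cases w X <;> interval_cases w Y <;> norm_num
    have hlt : ∑ X ∈ (univ : U).powersetCard 3, ∑ Y ∈ (Xᶜ).powersetCard 3, (w X + w Y) <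
        ∑ X ∈ (univ : U).powersetCard 3, ∑ Y ∈ (Xᶜ).powersetCard 3, (w X * w Y + 1) := by
      apply Finset.sum_lt_sum
      · intro X _
        exact Finset.sum_le_sum (fun Y _ => hstep X Y)
      · refine ⟨S, hS, ?_⟩
        apply Finset.sum_lt_sum
        · intro Y _; exact hstep S Y
        · refine ⟨S', hmem, ?_⟩
          rw [hS0, hS'0]; norm_num
    simp only [Finset.sum_add_distrib] at hlt
    have h1 : ∑ S ∈ (univ : U).powersetCard 3, ∑ _S' ∈ (Sᶜ).powersetCard 3, w S =
        4 * a w 3 univ := by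
      rw [sum_fst_layer]; rfl
    have h2 : ∑ S ∈ (univ : U).powersetCard 3, ∑ S' ∈ (Sᶜ).powersetCard 3, w S' =
        4 * a w 3 univ :=
      (sum_disj_swap 3 3 (fun _ S' => w S')).trans h1
    have h10 : ∑ S ∈ (univ : U).powersetCard 3, ∑ _S' ∈ (Sᶜ).powersetCard 3, 1 = 140 := by
      rw [sum_const_layer]; decide
    rw [h1, h2, h10, hw3] at hlt
    omega
  refine ⟨hsizes, hE3, ?_⟩
  intro S hSW hS3
  have hSP : S ∈ (univ : U).powersetCard 3 := mem_powersetCard.2 ⟨subset_univ S, hS3⟩
  have hwS : w S = 1 := by rw [hwdef]; dsimp only; rw [if_pos hSW]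
  obtain ⟨S', hS', hd, hwS'⟩ := kneser_cover w hw (by omega) hind S hSP hwS
  refine ⟨S', ?_, (mem_powersetCard.1 hS').2, hd⟩
  by_contra hn
  rw [hwdef] at hwS'; dsimp only at hwS'
  rw [if_neg hn] at hwS'
  omega

end Pool.Agent.Lib.MP_5f100a_co
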