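import Pool.Agent.Lib.MP_5f100a_co.Structure

set_option autoImplicit false

namespace Pool.Agent.Lib.MP_5f100a_co

open Finset

/-- An intersecting family with 64 members contains a set or its complement. -/
theorem mem_or_compl_mem (F : Finset U) (h64 : F.card = 64)
    (hI : ∀ X ∈ F, ∀ Y ∈ F, X ≠ Y → ¬ Disjoint X Y) (X : U) : X ∈ F ∨ Xᶜ ∈ F := by
  classical
  have hd : Disjoint F (F.image (fun X => Xᶜ)) := by
    rw [Finset.disjoint_left]
    intro Y hY hY2
    rw [mem_image] at hY2
    obtain ⟨Z, hZ, rfl⟩ := hY2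
    exact hI Z hZ Zᶜ hY ne_compl_self disjoint_compl_right
  have hc : (F.image (fun X => Xᶜ)).card = 64 := by
    rw [Finset.card_image_of_injective _ compl_injective, h64]
  have hu : F ∪ F.image (fun X => Xᶜ) = univ := by
    apply Finset.eq_univ_of_card
    rw [Finset.card_union_of_disjoint hd, h64, hc]
    simp
  have hX : X ∈ F ∪ F.image (fun X => Xᶜ) := by rw [hu]; exact mem_univ X
  rw [mem_union, mem_image] at hX
  rcases hX with h | ⟨Z, hZ, rfl⟩
  · exact Or.inl h
  · right; rwa [compl_compl]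

theorem card_pairs (W : Finset U) :
    (((W.filter (fun X => X.card = 3)) ×ˢ (W.filter (fun X => X.card = 3))).filter
      (fun q => Disjoint q.1 q.2)).card =
    ∑ S ∈ (univ : U).powersetCard 3, ∑ S' ∈ (Sᶜ).powersetCard 3,
      (if S ∈ W then 1 else 0) * (if S' ∈ W then 1 else 0) := by
  classical
  rw [Finset.card_filter, Finset.sum_product, Finset.sum_filter]
  have e1 : ∀ S : U, (∑ S' ∈ W.filter (fun X => X.card = 3), if Disjoint S S' then 1 else 0) =
      ∑ S' ∈ (Sᶜ).powersetCard 3, (if S' ∈ W then 1 else 0) := by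
    intro S
    rw [← Finset.card_filter, ← Finset.card_filter]
    have e0 : (W.filter (fun X => X.card = 3)).filter (fun S' => Disjoint S S') =
        ((Sᶜ).powersetCard 3).filter (fun S' => S' ∈ W) := by
      ext Y
      rw [mem_filter, mem_filter, mem_filter, mem_powersetCard,
        Finset.subset_compl_iff_disjoint_left]
      exact ⟨fun h => ⟨⟨h.2, h.1.2⟩, h.1.1⟩, fun h => ⟨⟨h.2, h.1.2⟩, h.1.1⟩⟩
    rw [e0]
  simp only [e1]
  have e2 : ∀ f : U → ℕ, (∑ S ∈ W, if S.card = 3 then f S else 0) =
      ∑ S ∈ (univ : U).powersetCard 3, (if S ∈ W then 1 else 0) * f S := by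
    intro f
    rw [← Finset.sum_filter]
    simp only [ite_mul, one_mul, zero_mul]
    rw [← Finset.sum_filter]
    have e0 : W.filter (fun S => S.card = 3) =
        ((univ : U).powersetCard 3).filter (fun S => S ∈ W) := by
      ext Y
      rw [mem_filter, mem_filter, mem_powersetCard]
      exact ⟨fun h => ⟨⟨subset_univ Y, h.2⟩, h.1⟩, fun h => ⟨h.2, h.1.2⟩⟩
    rw [e0]
  rw [e2]
  simp only [Finset.mul_sum]

theorem upper (A : Finset U) (h84 : A.card = 84) (hdp : (dp A).card ≤ 60) :
    ((A.powersetCard 64).filter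
      (fun F => ∀ X ∈ F, ∀ Y ∈ F, X ≠ Y → ¬ Disjoint X Y)).card ≤ 3 ^ 10 := by
  classical
  set W := A.filter (fun X => Xᶜ ∈ A) with hW
  have hWmem : ∀ X, X ∈ W ↔ X ∈ A ∧ Xᶜ ∈ A := by intro X; rw [hW, mem_filter]
  have hc : ∀ X ∈ W, Xᶜ ∈ W := by
    intro X hX
    rw [hWmem] at hX ⊢
    exact ⟨hX.2, by rw [compl_compl]; exact hX.1⟩
  have h40 : 40 ≤ W.card := by
    have hWi : W = A ∩ A.image (fun X => Xᶜ) := by
      ext X
      rw [hWmem, mem_inter, mem_image]
      constructor
      · rintro ⟨h1, h2⟩; exact ⟨h1, Xᶜ, h2, compl_compl X⟩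
      · rintro ⟨h1, Z, hZ, rfl⟩; exact ⟨h1, by rw [compl_compl]; exact hZ⟩
    have h1 := Finset.card_union_add_card_inter A (A.image (fun X => Xᶜ))
    rw [← hWi, Finset.card_image_of_injective _ compl_injective, h84] at h1
    have h2 : (A ∪ A.image (fun X => Xᶜ)).card ≤ 128 := by
      have := Finset.card_le_univ (A ∪ A.image (fun X => Xᶜ))
      simpa using this
    omega
  have hWA : W ⊆ A := Finset.filter_subset _ _
  have hdpW : (dp W).card ≤ 60 := by
    refine le_trans (Finset.card_le_card ?_) hdp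
    intro q hq
    unfold dp at hq ⊢
    rw [mem_filter, mem_product] at hq ⊢
    exact ⟨⟨hWA hq.1.1, hWA hq.1.2⟩, hq.2⟩
  obtain ⟨hsizes, hE3, hcov⟩ := structure_thm W hc h40 hdpW
  -- the disjoint pairs of 3-sets
  set W3 := W.filter (fun X => X.card = 3) with hW3
  set D := (W3 ×ˢ W3).filter (fun q => Disjoint q.1 q.2) with hD
  have hDcard : D.card ≤ 20 := by
    refine le_trans (le_of_eq ?_) hE3
    rw [hD, hW3]
    exact card_pairs W
  set E := D.image (fun q => ({q.1, q.2} : Finset U)) with hE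
  have hDmem : ∀ q ∈ D, q.1 ∈ W3 ∧ q.2 ∈ W3 ∧ Disjoint q.1 q.2 ∧ q.1 ≠ q.2 := by
    intro q hq
    rw [hD, mem_filter, mem_product] at hq
    refine ⟨hq.1.1, hq.1.2, hq.2, ?_⟩
    intro h
    have h1 := hq.2
    rw [← h, disjoint_self] at h1
    have h2 := hq.1.1
    rw [hW3, mem_filter, h1] at h2
    simp at h2
  have hEcard : E.card ≤ 10 := by
    have hmaps : ∀ q ∈ D, (fun q : U × U => ({q.1, q.2} : Finset U)) q ∈ E := by
      intro q hq
      exact Finset.mem_image_of_mem _ hq
    have h1 := Finset.card_eq_sum_card_fiberwise hmaps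
    have h2 : ∑ e ∈ E, 2 ≤ ∑ e ∈ E, (D.filter
        (fun q => (fun q : U × U => ({q.1, q.2} : Finset U)) q = e)).card := by
      apply Finset.sum_le_sum
      intro e he
      rw [hE, mem_image] at he
      obtain ⟨q, hq, rfl⟩ := he
      obtain ⟨m1, m2, m3, m4⟩ := hDmem q hq
      have hsub : ({(q.1, q.2), (q.2, q.1)} : Finset (U × U)) ⊆ D.filter
        (fun q' => (fun q : U × U => ({q.1, q.2} : Finset U)) q' = {q.1, q.2}) := by
        intro r hr
        rw [mem_insert, mem_singleton] at hr
        rw [mem_filter]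
        rcases hr with rfl | rfl
        · exact ⟨hq, rfl⟩
        · refine ⟨?_, Finset.pair_comm _ _⟩
          rw [hD, mem_filter, mem_product]
          exact ⟨⟨m2, m1⟩, m3.symm⟩
      calc 2 = ({(q.1, q.2), (q.2, q.1)} : Finset (U × U)).card := by
            rw [Finset.card_pair]
            intro h
            exact m4 (Prod.mk.inj h).1
        _ ≤ _ := Finset.card_le_card hsub
    rw [Finset.sum_const, smul_eq_mul, ← h1] at h2
    omega
  have hE2 : ∀ e ∈ E, e.card = 2 := by
    intro e he
    rw [hE, mem_image] at he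
    obtain ⟨q, hq, rfl⟩ := he
    exact Finset.card_pair (hDmem q hq).2.2.2
  -- the injection
  set T : Finset U → Finset (Finset U) := fun e => e.powerset.erase e with hT
  have hTcard : (E.pi T).card ≤ 3 ^ 10 := by
    rw [Finset.card_pi]
    have : ∀ e ∈ E, (T e).card = 3 := by
      intro e he
      rw [hT]; dsimp only
      rw [Finset.card_erase_of_mem (Finset.mem_powerset_self e), Finset.card_powerset, hE2 e he]
      norm_num
    rw [Finset.prod_congr rfl this, Finset.prod_const]
    exact Nat.pow_le_pow_right (by norm_num) hEcard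
  refine le_trans ?_ hTcard
  apply Finset.card_le_card_of_injOn (fun F => (fun e (_ : e ∈ E) => F ∩ e))
  · intro F hF
    rw [mem_coe, mem_filter] at hF
    rw [mem_coe, Finset.mem_pi]
    intro e he
    rw [hT]; dsimp only
    rw [mem_erase, mem_powerset]
    refine ⟨?_, Finset.inter_subset_right⟩
    intro h
    have hsub : e ⊆ F := Finset.inter_eq_right.1 h
    rw [hE, mem_image] at he
    obtain ⟨q, hq, rfl⟩ := he
    obtain ⟨m1, m2, m3, m4⟩ := hDmem q hq
    exact hF.2 q.1 (hsub (by simp)) q.2 (hsub (by simp)) m4 m3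
  · intro F hF F' hF' heq
    rw [mem_coe, mem_filter, mem_powersetCard] at hF hF'
    have hagree : ∀ S ∈ W, S.card = 3 → (S ∈ F ↔ S ∈ F') := by
      intro S hSW hS3
      obtain ⟨S', hS'W, hS'3, hd⟩ := hcov S hSW hS3
      have he : ({S, S'} : Finset U) ∈ E := by
        rw [hE, mem_image]
        refine ⟨(S, S'), ?_, rfl⟩
        rw [hD, mem_filter, mem_product, hW3]
        exact ⟨⟨mem_filter.2 ⟨hSW, hS3⟩, mem_filter.2 ⟨hS'W, hS'3⟩⟩, hd⟩
      have h1 : F ∩ {S, S'} = F' ∩ {S, S'} := by
        have := congrFun (congrFun heq {S, S'}) he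
        exact this
      constructor
      · intro h
        have : S ∈ F ∩ {S, S'} := by simp [h]
        rw [h1] at this
        exact (mem_inter.1 this).1
      · intro h
        have : S ∈ F' ∩ {S, S'} := by simp [h]
        rw [← h1] at this
        exact (mem_inter.1 this).1
    have hsub : F ⊆ F' := by
      intro X hX
      rcases mem_or_compl_mem F' hF'.1.2 hF'.2 X with h | h
      · exact h
      · exfalso
        have hXW : X ∈ W := (hWmem X).2 ⟨hF.1.1 hX, hF'.1.1 h⟩
        rcases hsizes X hXW with h3 | h4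
        · have := (hagree X hXW h3).1 hX
          exact hF'.2 X this Xᶜ h ne_compl_self disjoint_compl_right
        · have h3 : Xᶜ.card = 3 := by rw [Finset.card_compl, Fintype.card_fin, h4]
          have := (hagree Xᶜ (hc X hXW) h3).2 h
          exact hF.2 X hX Xᶜ this ne_compl_self disjoint_compl_right
    exact Finset.eq_of_subset_of_card_le hsub (by rw [hF.1.2, hF'.1.2])

end Pool.Agent.Lib.MP_5f100a_co
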